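import Pool.Agent.Lib.MP_6a3dac_ag.Mg.G038
import Pool.Agent.Lib.MP_6a3dac_ag.Mg.G040

/-!
# The density of the nodal complete intersections
-/

set_option autoImplicit false

namespace Pool.Agent.Lib.MP_6a3dac_ag.Sys

open MvPolynomial AlgebraicGeometry NumberField IsDedekindDomain Filter Topology
open Pool.Agent.Lib.MP_6a3dac_ag.DNF

/-- The system with the coefficients `a` defines a smooth complete intersection over `E`, and over
the residue fields of all prime ideals not containing `m` its singular geometric points are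
nondegenerate double points. -/
def NodalAway {E : Type} [Field E] [NumberField E] {n c : ℕ} {d : Fin c → ℕ}
    (a : Coef n d → 𝓞 E) (m : 𝓞 E) : Prop :=
  NoSing (fun μ => algebraMap (𝓞 E) E (a μ)) ∧ ∀ P : HeightOneSpectrum (𝓞 E), m ∉ P.asIdeal →
    Nodal fun μ => Ideal.Quotient.mk P.asIdeal (a μ)

/-- The system with the coefficients `a` defines a smooth scheme over `E` which has a regular proper
flat model over all Dedekind domains which are not fields, contain the ring of integers of `E` and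
in which `m` is a unit. -/
def HasModels {E : Type} [Field E] [NumberField E] {n c : ℕ} {d : Fin c → ℕ}
    (a : Coef n d → 𝓞 E) (m : 𝓞 E) : Prop :=
  Smooth (hProjTo (sIdeal fun μ => algebraMap (𝓞 E) E (a μ))) ∧
    ∀ (R K : Type) [CommRing R] [IsDedekindDomain R] [Field K] [Algebra R K]
      [IsFractionRing R K] (φ : 𝓞 E →+* R), Function.Injective φ → ¬ IsField R →
      IsUnit (φ m) → HasModelOver R K (hProjTo (sIdeal fun μ => algebraMap R K (φ (a μ))))

open Classical in
/-- The density of the set `S` of elements of `B ^ ι`, ordered by the size of their coordinates in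
the basis `b`, is `δ`. -/
def HasDensity {ι B : Type} [Fintype ι] [DecidableEq ι] [CommRing B] {s : ℕ}
    (b : Module.Basis (Fin s) ℤ B) (S : (ι → B) → Prop) (δ : ℝ) : Prop :=
  Tendsto (fun H : ℕ => (((box (ι × Fin s) H).filter fun u => S (coeffs b u)).card : ℝ) /
    (box (ι × Fin s) H).card) atTop (𝓝 δ)

open Classical in
/-- The local factor at `P`: one if `m` lies in `P`, else the proportion of the nodal systems over
the residue field of `P`. -/
noncomputable def localFactor {E : Type} [Field E] [NumberField E] (n : ℕ) {c : ℕ}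
    (d : Fin c → ℕ) (m : 𝓞 E) (P : HeightOneSpectrum (𝓞 E)) : ℝ :=
  if m ∈ P.asIdeal then 1 else nodalDensity E n d P

/-- There is only one form, or all the degrees are equal and either at least three or equal to two
with `m` even, or all local factors are positive. -/
def PosCond {E : Type} [Field E] [NumberField E] (n : ℕ) {c : ℕ} (d : Fin c → ℕ) (m : 𝓞 E) :
    Prop :=
  c = 1 ∨ (∃ D, (∀ k, d k = D) ∧ (3 ≤ D ∨ (2 : 𝓞 E) ∣ m)) ∨ ∀ P, 0 < localFactor n d m P

section

variable {n c : ℕ} {d : Fin c → ℕ} {E : Type} [Field E] [NumberField E]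

/-- **The complete intersections with nondegenerate double points have models.** -/
theorem NodalAway.hasModels (hc : 1 ≤ c) (hcn : c < n) (hd : ∀ k, 2 ≤ d k)
    {a : Coef n d → 𝓞 E} {m : 𝓞 E} (h : NodalAway a m) : HasModels a m :=
  ⟨smooth_of_noSing h.1, fun R K _ _ _ _ _ φ hφ hRf hu =>
    model_of_nodal hc hcn hd h.1 h.2 R K φ hφ hRf hu⟩

theorem NoSing.nodal {k : Type} [CommRing k] {a : Coef n d → k} (h : NoSing a) : Nodal a :=
  fun L _ _ i j x y hx hy hs => absurd hs (h L i j x y hx hy)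

theorem nodalDensity_pos_of_exists {P : HeightOneSpectrum (𝓞 E)}
    (h : ∃ a : Coef n d → 𝓞 E ⧸ P.asIdeal, Nodal a) : 0 < nodalDensity E n d P := by
  obtain ⟨a, ha⟩ := h
  have hfin : Finite (𝓞 E ⧸ P.asIdeal) := Ideal.finiteQuotientOfFreeOfNeBot _ P.ne_bot
  rw [nodalDensity]
  have h2 : Nonempty {a : Coef n d → 𝓞 E ⧸ P.asIdeal // Nodal a} := ⟨⟨a, ha⟩⟩
  refine div_pos ?_ ?_
  · exact_mod_cast Nat.card_pos
  · exact_mod_cast Nat.card_pos

end

/-- For forms of the same degree the factors are positive, except possibly for quadratic forms in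
residue characteristic two. -/
theorem nodalDensity_pos_eq {n c D : ℕ} (hcn : c < n) (hD : 2 ≤ D) (E : Type) [Field E]
    [NumberField E] (P : HeightOneSpectrum (𝓞 E)) (h2 : 3 ≤ D ∨ (2 : 𝓞 E) ∉ P.asIdeal) :
    0 < nodalDensity E n (fun _ : Fin c => D) P := by
  apply nodalDensity_pos_of_exists
  have hfin : Finite (𝓞 E ⧸ P.asIdeal) := Ideal.finiteQuotientOfFreeOfNeBot _ P.ne_bot
  have hP : P.asIdeal.IsMaximal := P.isMaximal
  let _ : Field (𝓞 E ⧸ P.asIdeal) := Ideal.Quotient.field P.asIdeal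
  by_cases h : (D : 𝓞 E ⧸ P.asIdeal) = 0
  · have hD3 : 3 ≤ D := by
      rcases h2 with h3 | h3
      · exact h3
      · by_contra h4
        have h5 : D = 2 := by omega
        subst h5
        refine h3 (Ideal.Quotient.eq_zero_iff_mem.mp ?_)
        rw [map_ofNat]
        exact_mod_cast h
    obtain ⟨a, ha⟩ := exists_noSing_wild (k := 𝓞 E ⧸ P.asIdeal) hcn.le
      (d := fun _ : Fin c => D) (fun _ => hD3) fun _ => h
    exact ⟨a, ha.nodal⟩
  · obtain ⟨a, ha⟩ := exists_noSing_tame (n := n) (c := c) (k := 𝓞 E ⧸ P.asIdeal) hD h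
    exact ⟨a, ha.nodal⟩

section Main

variable {n c : ℕ} {d : Fin c → ℕ}

/-- **The density of the nodal complete intersections.** -/
theorem nodal_density (E : Type) [Field E] [NumberField E] {s : ℕ}
    (b : Module.Basis (Fin s) ℤ (𝓞 E)) (hcn : c < n) (hd : ∀ k, 2 ≤ d k) :
    ∃ Δ : 𝓞 E → ℝ,
      (∀ m : 𝓞 E, HasProd (localFactor n d m) (Δ m) ∧
        ((∀ P, 0 < localFactor n d m P) → 0 < Δ m) ∧
        HasDensity b (fun a : Coef n d → 𝓞 E => NodalAway a m) (Δ m)) ∧
      ∀ ε : ℝ, 0 < ε → ∃ m₀ : 𝓞 E, m₀ ≠ 0 ∧ ∀ m : 𝓞 E, m₀ ∣ m → 1 - ε < Δ m := by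
  classical
  choose g G hg hgG hpair using fun t : Fin (n + 1) × Fin c => exists_pair_sys hd hcn t.1 t.2
  obtain ⟨C, M₀, hC⟩ := density_abs b g G hg hgG
  let Ω : 𝓞 E → ∀ P : HeightOneSpectrum (𝓞 E), Set (Coef n d → 𝓞 E ⧸ P.asIdeal) :=
    fun m P => {a | m ∈ P.asIdeal ∨ Nodal a}
  have hΩ : ∀ m (P : HeightOneSpectrum (𝓞 E)) (a : Coef n d → 𝓞 E), (2 : 𝓞 E) ∉ P.asIdeal →
      (fun i => Ideal.Quotient.mk P.asIdeal (a i)) ∉ Ω m P →
      ∃ t, aeval a (g t) ∈ P.asIdeal ∧ aeval a (G t) ∈ P.asIdeal := by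
    intro m P a _ ha
    have hPm : P.asIdeal.IsMaximal := P.isMaximal
    refine pair_of_not_nodal hpair P.asIdeal a fun h => ha (Or.inr h)
  choose Δ hΔ1 hΔ2 hΔ3 hΔ4 using fun m => hC (Ω m) (hΩ m)
  have hcard : ∀ m (P : HeightOneSpectrum (𝓞 E)), (Nat.card (Ω m P) : ℝ) /
      Nat.card (Coef n d → 𝓞 E ⧸ P.asIdeal) = localFactor n d m P := by
    intro m P
    rw [localFactor]
    split_ifs with h
    · have h1 : Ω m P = Set.univ := Set.eq_univ_of_forall fun a => Or.inl h
      have hfin : Finite (𝓞 E ⧸ P.asIdeal) := Ideal.finiteQuotientOfFreeOfNeBot _ P.ne_bot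
      rw [h1, Nat.card_congr (Equiv.Set.univ _)]
      refine div_self ?_
      exact_mod_cast Nat.card_pos.ne'
    · rw [nodalDensity]
      congr 2
      refine Nat.card_congr (Equiv.subtypeEquivRight fun a => ?_)
      change (m ∈ P.asIdeal ∨ Nodal a) ↔ _
      simp [h]
  refine ⟨Δ, fun m => ⟨?_, ?_, ?_⟩, ?_⟩
  · have h1 := hΔ1 m
    simp only [hcard] at h1
    exact h1
  · intro hpos
    refine hΔ3 m fun P => ?_
    have h1 := hpos P
    rw [← hcard] at h1
    by_contra hemp
    rw [Set.not_nonempty_iff_eq_empty] at hemp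
    rw [hemp] at h1
    simp at h1
  · -- the density
    have h1 := hΔ2 m
    have h2 : ∀ t, Tendsto (prop fun u => aeval (coeffs b u) (g t) = 0) atTop (𝓝 0) := fun t =>
      tendsto_prop_zero b (g t) (hg t).ne_zero
    have h3 := h1.sub (tendsto_finsetSum Finset.univ fun t _ => h2 t)
    rw [Finset.sum_const_zero, sub_zero] at h3
    have hlow : ∀ H, prop (fun u => ∀ P, red b P u ∈ Ω m P) H -
        ∑ t, prop (fun u => aeval (coeffs b u) (g t) = 0) H ≤
        prop (fun u : Coef n d × Fin s → ℤ => NodalAway (coeffs b u) m) H := by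
      intro H
      rw [sub_le_iff_le_add]
      refine prop_le_add_sum (fun u hu => ?_) H
      by_cases hz : ∃ t, aeval (coeffs b u) (g t) = 0
      · exact Or.inr hz
      · push Not at hz
        exact Or.inl ⟨noSing_of_pair hpair _ hz, fun P hP => (hu P).resolve_left hP⟩
    have hup : ∀ H, prop (fun u : Coef n d × Fin s → ℤ => NodalAway (coeffs b u) m) H ≤
        prop (fun u => ∀ P, red b P u ∈ Ω m P) H := by
      intro H
      refine t30_prop_mono (fun u hu P => ?_) H
      by_cases hP : m ∈ P.asIdeal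
      · exact Or.inl hP
      · exact Or.inr (hu.2 P hP)
    have h4 := tendsto_of_tendsto_of_tendsto_of_le_of_le h3 h1 hlow hup
    refine h4.congr fun H => ?_
    rw [prop]
  · intro ε hε
    obtain ⟨M, hM⟩ := exists_nat_gt (max (M₀ : ℝ) (C / ε))
    have hM0 : M₀ ≤ M := by
      have := (le_max_left _ _).trans hM.le
      exact_mod_cast this
    have hMpos : (0 : ℝ) < M := by
      have h1 : (0 : ℝ) ≤ M₀ := Nat.cast_nonneg _
      exact lt_of_le_of_lt (h1.trans (le_max_left _ _)) hM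
    refine ⟨(M.factorial : 𝓞 E), by exact_mod_cast M.factorial_ne_zero, fun m hmd => ?_⟩
    have h1 := hΔ4 m M hM0 fun P p hp hpM hpP => Set.eq_univ_of_forall fun a => Or.inl ?_
    · have h2 : C / M < ε := by
        rw [div_lt_iff₀ hMpos]
        have h3 := (le_max_right _ _).trans_lt hM
        rw [div_lt_iff₀ hε] at h3
        linarith
      linarith
    · obtain ⟨w, hw⟩ := (Nat.cast_dvd_cast (hp.dvd_factorial.mpr hpM) :
        (p : 𝓞 E) ∣ (M.factorial : 𝓞 E)).trans hmd
      rw [hw]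
      exact P.asIdeal.mul_mem_right _ hpP

/-- **Complete intersections and regular models.** -/
theorem ci_result (E : Type) [Field E] [NumberField E] (s : ℕ)
    (b : Module.Basis (Fin s) ℤ (𝓞 E)) (n c : ℕ) (hc : 1 ≤ c) (hcn : c < n) (d : Fin c → ℕ)
    (hd : ∀ k, 2 ≤ d k) :
    ∃ Δ : 𝓞 E → ℝ,
      (∀ m : 𝓞 E, (∀ a : Coef n d → 𝓞 E, NodalAway a m → HasModels a m) ∧
        HasDensity b (fun a : Coef n d → 𝓞 E => NodalAway a m) (Δ m) ∧
        HasProd (localFactor n d m) (Δ m) ∧
        (PosCond n d m → 0 < Δ m)) ∧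
      ∀ ε : ℝ, 0 < ε → ∃ m₀ : 𝓞 E, m₀ ≠ 0 ∧ ∀ m : 𝓞 E, m₀ ∣ m → 1 - ε < Δ m := by
  classical
  obtain ⟨Δ, h1, h2⟩ := nodal_density E b hcn hd
  refine ⟨Δ, fun m => ⟨fun a h => h.hasModels hc hcn hd, (h1 m).2.2, (h1 m).1, ?_⟩, h2⟩
  have h3 : (∀ P : HeightOneSpectrum (𝓞 E), m ∉ P.asIdeal → 0 < nodalDensity E n d P) →
      0 < Δ m := by
    intro h
    refine (h1 m).2.1 fun P => ?_
    rw [localFactor]
    split_ifs with h4
    · exact one_pos
    · exact h P h4
  rintro (hc1 | ⟨D, hdD, hD⟩ | h)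
  · subst hc1
    exact h3 fun P _ => nodalDensity_pos (hd 0) E P
  · obtain rfl : d = fun _ => D := funext hdD
    refine h3 fun P hP => nodalDensity_pos_eq hcn (hd ⟨0, hc⟩) E P (hD.imp_right fun h4 h5 => ?_)
    obtain ⟨w, hw⟩ := h4
    exact hP (hw ▸ P.asIdeal.mul_mem_right w h5)
  · exact (h1 m).2.1 h

end Main

end Pool.Agent.Lib.MP_6a3dac_ag.Sys
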