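import Pool.Agent.Lib.MP_6a3dac_ag.DNF.LocalD
import Pool.Agent.Lib.MP_6a3dac_ag.DNF.Hyper

/-!
# Systems of forms and their nondegenerate singular points
-/

set_option autoImplicit false

namespace Pool.Agent.Lib.MP_6a3dac_ag.Sys

open MvPolynomial CategoryTheory Limits AlgebraicGeometry NumberField IsDedekindDomain
open Pool.Agent.Lib.MP_6a3dac_ag.DNF

/-- The coefficients of the systems of forms of degrees `d 0, ..., d (c - 1)` in `n + 1`
variables. -/
abbrev Coef (n : ℕ) {c : ℕ} (d : Fin c → ℕ) : Type := Σ k : Fin c, Mono n (d k)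

/-- The `k`-th form of the system with the coefficients `a`. -/
noncomputable def sform {n c : ℕ} {d : Fin c → ℕ} {R : Type} [CommRing R] (a : Coef n d → R)
    (k : Fin c) : MvPolynomial (Fin (n + 1)) R :=
  form fun μ : Mono n (d k) => a ⟨k, μ⟩

/-- `x` is a zero of the polynomials `F k` at which `∑ k, y k * F k` has gradient zero. -/
def IsSing {n c : ℕ} {L : Type} [CommRing L] (F : Fin c → MvPolynomial (Fin (n + 1)) L)
    (x : Fin (n + 1) → L) (y : Fin c → L) : Prop :=
  (∀ k, eval x (F k) = 0) ∧ ∀ l, ∑ k, y k * eval x (pderiv l (F k)) = 0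

/-- The Hessian matrix of `∑ k, y k * F k` with respect to the `x l`, `l ≠ i`, and the `y k`,
`k ≠ j`. -/
noncomputable def hessAt {n c : ℕ} {L : Type} [CommRing L]
    (F : Fin c → MvPolynomial (Fin (n + 1)) L) (i : Fin (n + 1)) (j : Fin c)
    (x : Fin (n + 1) → L) (y : Fin c → L) :
    Matrix ({l : Fin (n + 1) // l ≠ i} ⊕ {k : Fin c // k ≠ j})
      ({l : Fin (n + 1) // l ≠ i} ⊕ {k : Fin c // k ≠ j}) L :=
  Matrix.fromBlocks
    (Matrix.of fun l m => ∑ k, y k * eval x (pderiv l.1 (pderiv m.1 (F k))))
    (Matrix.of fun l k => eval x (pderiv l.1 (F k.1)))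
    (Matrix.of fun k l => eval x (pderiv l.1 (F k.1))) 0

/-- All singular geometric points of the system are nondegenerate double points. -/
def Nodal {n c : ℕ} {d : Fin c → ℕ} {k : Type} [CommRing k] (a : Coef n d → k) : Prop :=
  ∀ (L : Type) [Field L] [Algebra k L] (i : Fin (n + 1)) (j : Fin c) (x : Fin (n + 1) → L)
    (y : Fin c → L), x i = 1 → y j = 1 → IsSing (sform fun μ => algebraMap k L (a μ)) x y →
      (hessAt (sform fun μ => algebraMap k L (a μ)) i j x y).det ≠ 0

/-- The proportion of the nodal systems over the residue field of `P`. -/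
noncomputable def nodalDensity (E : Type) [Field E] [NumberField E] (n : ℕ) {c : ℕ}
    (d : Fin c → ℕ) (P : HeightOneSpectrum (𝓞 E)) : ℝ :=
  Nat.card {a : Coef n d → 𝓞 E ⧸ P.asIdeal // Nodal a} /
    Nat.card (Coef n d → 𝓞 E ⧸ P.asIdeal)

/-- The minors of maximal size of the Jacobian matrix. -/
noncomputable def minor {c : ℕ} {σ O : Type} [CommRing O] (F : Fin c → MvPolynomial σ O)
    (s : Fin c → σ) : MvPolynomial σ O :=
  (Matrix.of fun k b => pderiv (s b) (F k)).det

/-- The polynomial `F j + ∑ k ≠ j, y k * F k` in the `x l` and the `y k`, `k ≠ j`. -/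
noncomputable def lagr {c : ℕ} {σ O : Type} [CommRing O] (F : Fin c → MvPolynomial σ O)
    (j : Fin c) : MvPolynomial (σ ⊕ {k : Fin c // k ≠ j}) O :=
  rename Sum.inl (F j) + ∑ k : {k : Fin c // k ≠ j}, X (Sum.inr k) * rename Sum.inl (F k.1)

/-- The singular points of the fibre of the system over the closed point are nondegenerate double
points. -/
def NondegSys {c : ℕ} {σ O : Type} [CommRing O] [Fintype σ] [DecidableEq σ] (ϖ : O)
    (F : Fin c → MvPolynomial σ O) : Prop :=
  ∀ j, NondegAt ϖ (lagr F j)

/-- The homogeneous ideal generated by the forms of the system with the coefficients `a`. -/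
noncomputable def sIdeal {n c : ℕ} {d : Fin c → ℕ} {R : Type} [CommRing R] (a : Coef n d → R) :
    HomIdeal R (n + 1) where
  ideal := Ideal.span (Set.range (sform a))
  homog := by
    intro f hf i
    let _ := MvPolynomial.gradedAlgebra (σ := Fin (n + 1)) (R := R)
    have h1 : (Ideal.span (Set.range (sform a))).IsHomogeneous
        (homogeneousSubmodule (Fin (n + 1)) R) := by
      apply Ideal.homogeneous_span
      rintro x ⟨k, rfl⟩
      exact ⟨d k, isHomogeneous_form _⟩
    have h2 := h1 i hf
    rwa [show DirectSum.decompose (homogeneousSubmodule (Fin (n + 1)) R) f i =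
      MvPolynomial.decomposition.decompose' f i from rfl,
      MvPolynomial.decomposition.decompose'_apply] at h2

/-- The morphism `π` to the spectrum of the field `K` is the generic fibre of a regular proper
flat scheme over the spectrum of the ring `R`. -/
def HasModelOver (R K : Type) [CommRing R] [Field K] [Algebra R K] {X : Scheme.{0}}
    (π : X ⟶ Spec (CommRingCat.of K)) : Prop :=
  ∃ (Y : Scheme.{0}) (g : Y ⟶ Spec (CommRingCat.of R)),
    IsProper g ∧ Flat g ∧ (∀ y : Y, IsRegularLocalRing (Y.presheaf.stalk y)) ∧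
    ∃ e : pullback g (Spec.map (CommRingCat.ofHom (algebraMap R K))) ≅ X,
      e.hom ≫ π = pullback.snd g (Spec.map (CommRingCat.ofHom (algebraMap R K)))

end Pool.Agent.Lib.MP_6a3dac_ag.Sys
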