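import Pool.Agent.Lib.MP_6a3dac_ag.Mg.G038

/-!
# The definitions of the density statement
-/

set_option autoImplicit false

namespace Pool.Agent.Lib.MP_6a3dac_ag.Sys

open AlgebraicGeometry NumberField IsDedekindDomain Pool.Agent.Lib.MP_6a3dac_ag.DNF

/-- The system with the coefficients `a` defines a smooth scheme over `E` which has a regular proper
flat model over all Dedekind domains which are not fields, contain the ring of integers of `E` and
in which `m` is a unit. -/
def HasModels {E : Type} [Field E] [NumberField E] {n c : ℕ} {d : Fin c → ℕ}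
    (a : Coef n d → 𝓞 E) (m : 𝓞 E) : Prop :=
  Smooth (hProjTo (sIdeal fun μ => algebraMap (𝓞 E) E (a μ))) ∧
    ∀ (R K : Type) [CommRing R] [IsDedekindDomain R] [Field K] [Algebra R K]
      [IsFractionRing R K] (φ : 𝓞 E →+* R), Function.Injective φ → ¬ IsField R →
      IsUnit (φ m) → HasModelOver R K (hProjTo (sIdeal fun μ => algebraMap R K (φ (a μ))))

open Classical in
/-- The lower density of the set `S` of elements of `B ^ ι`, ordered by the size of their
coordinates in the basis `b`, is at least `δ`. -/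
def DensityGE {ι B : Type} [Fintype ι] [DecidableEq ι] [CommRing B] {s : ℕ}
    (b : Module.Basis (Fin s) ℤ B) (S : (ι → B) → Prop) (δ : ℝ) : Prop :=
  ∀ ε : ℝ, 0 < ε → ∀ᶠ H : ℕ in Filter.atTop,
    (δ - ε) * (box (ι × Fin s) H).card ≤ ((box (ι × Fin s) H).filter fun u => S (coeffs b u)).card

open Classical in
/-- The local factor at `P`: one if `m` lies in `P`, else the proportion of the nodal systems over
the residue field of `P`. -/
noncomputable def localFactor {E : Type} [Field E] [NumberField E] (n : ℕ) {c : ℕ}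
    (d : Fin c → ℕ) (m : 𝓞 E) (P : HeightOneSpectrum (𝓞 E)) : ℝ :=
  if m ∈ P.asIdeal then 1 else nodalDensity E n d P

theorem ci_density' (E : Type) [Field E] [NumberField E] (s : ℕ)
    (b : Module.Basis (Fin s) ℤ (𝓞 E)) (n c : ℕ) (hc : 1 ≤ c) (hcn : c < n) (d : Fin c → ℕ)
    (hd : ∀ k, 2 ≤ d k) :
    ∃ Δ : 𝓞 E → ℝ,
      (∀ m : 𝓞 E, m ≠ 0 →
        HasProd (localFactor n d m) (Δ m) ∧
        ((c = 1 ∨ ∀ P, 0 < localFactor n d m P) → 0 < Δ m) ∧
        DensityGE b (fun a : Coef n d → 𝓞 E => HasModels a m) (Δ m)) ∧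
      ∀ ε : ℝ, 0 < ε → ∃ m₀ : 𝓞 E, m₀ ≠ 0 ∧ ∀ m : 𝓞 E, m ≠ 0 → m₀ ∣ m → 1 - ε < Δ m := by
  classical
  obtain ⟨Δ, h1, h2⟩ := ci_density E b hc hcn hd
  refine ⟨Δ, fun m hm => ⟨?_, ?_, ?_⟩, h2⟩
  · have h3 : localFactor n d m = fun P : HeightOneSpectrum (𝓞 E) =>
        if m ∈ P.asIdeal then 1 else nodalDensity E n d P := by
      funext P
      rw [localFactor]
    rw [h3]
    exact (h1 m hm).1
  · rintro (hc1 | h)
    · subst hc1
      exact (h1 m hm).2.1 fun P _ => nodalDensity_pos (hd 0) E P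
    · refine (h1 m hm).2.1 fun P hP => ?_
      have h3 := h P
      rwa [localFactor, if_neg hP] at h3
  · intro ε hε
    filter_upwards [(h1 m hm).2.2 ε hε] with H hH
    refine hH.trans (le_of_eq ?_)
    congr 2
    ext u
    simp only [Finset.mem_filter]
    rfl

end Pool.Agent.Lib.MP_6a3dac_ag.Sys
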